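import Pool.Agent.helper87.FM.Spec

/-!
# Row `fm:R2F`
-/

set_option autoImplicit false

namespace Pool.Agent.FM

open Polynomial Matrix Pool.Agent.helper42.NS Pool.Agent.FS

theorem R2F_num1 (a : ℕ) (ha : 6 ≤ a) : 180 * a ^ 2 + 130 * a + 12 ≤ 2 ^ (3 * a - 1) := by
  induction a, ha using Nat.le_induction with
  | base => norm_num
  | succ n hn ih =>
    have e : 3 * (n + 1) - 1 = (3 * n - 1) + 3 := by omega
    rw [e, pow_add]
    have h1 : n ≤ n ^ 2 := by nlinarith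
    nlinarith

theorem R2F_num2 (a : ℕ) (ha : 6 ≤ a) : 3300 * a ^ 2 + 3194 * a ≤ 2 ^ (7 * a) := by
  induction a, ha using Nat.le_induction with
  | base => norm_num
  | succ n hn ih =>
    have e : 7 * (n + 1) = 7 * n + 7 := by ring
    rw [e, pow_add]
    have h1 : n ≤ n ^ 2 := by nlinarith
    nlinarith

theorem R2F : R2F_stmt := by
  classical
  have h2 : R2A_stmt := R2A Pool.Agent.helper42.NS.FIN
  have h3 : R2E_stmt := T_R2E
  intro a t ha20 ht1 ht2
  have ha : 6 ≤ a := by omega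
  obtain ⟨τ, hτ⟩ : ∃ τ : ℕ, τ = 2 ^ (7 * a) := ⟨_, rfl⟩
  have hτt : τ ≤ t := by
    rw [hτ]
    exact le_trans (Nat.pow_le_pow_right (by norm_num) (by omega)) ht1
  obtain ⟨m, hm⟩ : ∃ m : ℕ, m = 2 ^ (t - τ) := ⟨_, rfl⟩
  obtain ⟨M, hM⟩ : ∃ M : ℕ, M = 2 ^ (t.choose 2) * 2 ^ (60 * a * (55 * a + 53 + 2 * τ)) :=
    ⟨_, rfl⟩
  have hmain : cnt t (fun H => Good (11 * a + 10) H ∧ ¬ R2 a H) * m ≤
      ((Finset.range (2 ^ (3 * a))).filter Nat.Prime).card *
        (2 ^ ((10 * a + 10) * τ) * (2 ^ (180 * a ^ 2 * τ) * M)) := by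
    unfold cnt
    refine R2C_union ((Finset.range (2 ^ (3 * a))).filter Nat.Prime)
      (fun p => {H : Matrix (Fin t) (Fin t) ℤ | IsGr H ∧
        (∀ P : Pt, Above p P → crk P H ≤ 55 * a + 53) ∧
        ∃ S : Finset (Fin t), S.card = τ ∧
        ∃ g : Fin t → (ZMod p)[X], (∃ s ∈ S, g s ≠ 0) ∧ (∀ s, (g s).degree < (60 * a : ℕ)) ∧
          Rel p H S g}) _ m _ ?_ ?_ ?_
    · intro S _
      exact (R2C_finite t).subset fun H h => h.1
    · rintro H ⟨hgr, hgood, hR2⟩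
      unfold R2 at hR2
      push Not at hR2
      obtain ⟨P, p, hp, hab, hplt, hq, φ, hφ, y, hy, hy0, hsp⟩ := hR2
      have hfin : {j | φ (y j) ≠ 0}.Finite := Set.toFinite _
      obtain ⟨S, hS1, hS2⟩ := Finset.exists_superset_card_eq (s := hfin.toFinset) (n := τ)
        (by rw [← Set.ncard_eq_toFinset_card _ hfin, hτ]; exact hsp)
        (by rw [Fintype.card_fin]; exact hτt)
      obtain ⟨g, hg1, hg2, hg3⟩ := h2 t p (60 * a) P H y φ S hp hab hq hφ hy hy0 (by
        intro j hj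
        by_contra hcon
        exact hj (hS1 (hfin.mem_toFinset.2 hcon)))
      rw [Set.mem_iUnion₂]
      refine ⟨p, Finset.mem_filter.2 ⟨Finset.mem_range.2 hplt, hp⟩, hgr, ?_, S, hS2, g, hg1,
        hg2, hg3⟩
      intro P' _
      have := (hgood P').2
      omega
    · intro p hp
      obtain ⟨hp1, hp2⟩ := Finset.mem_filter.1 hp
      rw [Finset.mem_range] at hp1
      have h4 := R2C_p h3 t p (60 * a) (55 * a + 53) τ m M hp2 hm hM
      refine h4.trans ?_
      apply Nat.mul_le_mul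
      · calc t.choose τ ≤ t ^ τ := Nat.choose_le_pow t τ
          _ ≤ (2 ^ (10 * a + 10)) ^ τ := Nat.pow_le_pow_left ht2 τ
          _ = 2 ^ ((10 * a + 10) * τ) := (pow_mul _ _ _).symm
      · apply Nat.mul_le_mul_right
        calc (p ^ (60 * a)) ^ τ ≤ ((2 ^ (3 * a)) ^ (60 * a)) ^ τ :=
              Nat.pow_le_pow_left (Nat.pow_le_pow_left hp1.le _) _
          _ = 2 ^ (180 * a ^ 2 * τ) := by
              rw [← pow_mul, ← pow_mul]; congr 1; ring
  have hI : ((Finset.range (2 ^ (3 * a))).filter Nat.Prime).card ≤ 2 ^ (3 * a) :=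
    (Finset.card_filter_le _ _).trans (by rw [Finset.card_range])
  have hexp : 11 * a + (3 * a + ((10 * a + 10) * τ + (180 * a ^ 2 * τ +
      60 * a * (55 * a + 53 + 2 * τ)))) ≤ t - τ := by
    have n1 := R2F_num1 a ha
    have n2 := R2F_num2 a ha
    rw [← hτ] at n2
    have n3 : τ * 2 ^ (3 * a - 1) ≤ t := by
      have : τ * 2 ^ (3 * a - 1) = 2 ^ (10 * a - 1) := by
        rw [hτ, ← pow_add]; congr 1; omega
      rw [this]; exact ht1
    have n4 : τ * (180 * a ^ 2 + 130 * a + 12) ≤ t := (Nat.mul_le_mul_left _ n1).trans n3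
    have n5 : 11 * a + (3 * a + ((10 * a + 10) * τ + (180 * a ^ 2 * τ +
      60 * a * (55 * a + 53 + 2 * τ)))) + τ ≤ t := by
      calc _ = (3300 * a ^ 2 + 3194 * a) + τ * (180 * a ^ 2 + 130 * a + 11) := by ring
        _ ≤ τ + τ * (180 * a ^ 2 + 130 * a + 11) := Nat.add_le_add_right n2 _
        _ = τ * (180 * a ^ 2 + 130 * a + 12) := by ring
        _ ≤ t := n4
    omega
  have hpos : 0 < m := by rw [hm]; positivity
  apply Nat.le_of_mul_le_mul_right _ hpos
  calc cnt t (fun H => Good (11 * a + 10) H ∧ ¬ R2 a H) * 2 ^ (11 * a) * m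
      = 2 ^ (11 * a) * (cnt t (fun H => Good (11 * a + 10) H ∧ ¬ R2 a H) * m) := by ring
    _ ≤ 2 ^ (11 * a) * (2 ^ (3 * a) * (2 ^ ((10 * a + 10) * τ) * (2 ^ (180 * a ^ 2 * τ) * M))) :=
        Nat.mul_le_mul_left _ (hmain.trans (Nat.mul_le_mul_right _ hI))
    _ = 2 ^ (t.choose 2) * 2 ^ (11 * a + (3 * a + ((10 * a + 10) * τ + (180 * a ^ 2 * τ +
      60 * a * (55 * a + 53 + 2 * τ))))) := by
        rw [hM]
        simp only [pow_add]
        ring
    _ ≤ 2 ^ (t.choose 2) * m := by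
        rw [hm]
        exact Nat.mul_le_mul_left _ (Nat.pow_le_pow_right (by norm_num) hexp)

end Pool.Agent.FM
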