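import Pool.Agent.helper94.FM.Spec
import Pool.Agent.helper94.FM.Ineq2
import Pool.Agent.helper27.TD.Final

set_option autoImplicit false

open Finset Filter Topology NumberField Module Pool.Agent.helper9.Tors

namespace Pool.Agent.FM

open Classical in
/-- the average of the `7`-torsion (our TorsionAverage), over `QD` -/
theorem V5_avg (f : ℤ → ℕ)
    (hf : ∀ (K : Type) [Field K] [NumberField K], finrank ℚ K = 2 →
      f (discr K) = Nat.card {x : ClassGroup (𝓞 K) // x ^ 7 = 1}) :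
    ∃ C₀ : ℝ, 0 ≤ C₀ ∧ ∀ N : ℕ, 1 ≤ N →
      ∑ D ∈ (Finset.Ioo (-(N : ℤ)) 0).filter QD, (f D : ℝ) ≤ C₀ * (N : ℝ) ^ (1301 / 1000 : ℝ) := by
  obtain ⟨C, hC⟩ := Pool.Agent.helper27.TD.all_floor 7 (by norm_num) (le_refl 7) (1 / 1000)
    (by norm_num)
  refine ⟨max C 0, le_max_right _ _, ?_⟩
  intro N hN
  obtain ⟨-, h2⟩ := hC f hf N
  have hfl : ⌊(4 * ((7 : ℕ) : ℝ) ^ 2) ^ (1 / 3 : ℝ)⌋₊ = 5 := by
    have h0 : (0 : ℝ) ≤ 4 * ((7 : ℕ) : ℝ) ^ 2 := by positivity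
    have h1 : (0 : ℝ) ≤ (4 * ((7 : ℕ) : ℝ) ^ 2) ^ (1 / 3 : ℝ) := by positivity
    have h3 : ((4 * ((7 : ℕ) : ℝ) ^ 2) ^ (1 / 3 : ℝ)) ^ 3 = 4 * ((7 : ℕ) : ℝ) ^ 2 := by
      rw [← Real.rpow_natCast, ← Real.rpow_mul h0]
      norm_num
    rw [Nat.floor_eq_iff h1]
    constructor
    · by_contra hcon
      push Not at hcon
      have := pow_lt_pow_left₀ hcon h1 (show (3 : ℕ) ≠ 0 by norm_num)
      rw [h3] at this
      norm_num at this
    · by_contra hcon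
      push Not at hcon
      have := pow_le_pow_left₀ (by positivity) hcon 3
      rw [h3] at this
      norm_num at this
  rw [hfl] at h2
  have hexp : (3 / 2 - 1 / ((5 : ℕ) : ℝ) + 1 / 1000 : ℝ) = 1301 / 1000 := by norm_num
  rw [hexp] at h2
  have hset : (Finset.Ioo (-(N : ℤ)) 0).filter QD =
      (Finset.Ioo (-(N : ℤ)) (0 : ℤ)).filter Pool.Agent.helper47.RA.IsFund := by
    apply Finset.filter_congr
    intro D hD
    exact qd_iff D (Finset.mem_Ioo.mp hD).2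
  rw [hset]
  refine h2.trans ?_
  have : (0 : ℝ) ≤ (N : ℝ) ^ (1301 / 1000 : ℝ) := by positivity
  exact mul_le_mul_of_nonneg_right (le_max_left _ _) this

theorem V5 (hV4 : V4_stmt) : V5_stmt := by
  classical
  intro f hf ε hε
  obtain ⟨C₀, hC₀, hsum⟩ := V5_avg f hf
  obtain ⟨C, hC1, hV⟩ := hV4 (1301 / 1000) (by norm_num) C₀ hC₀
  set θ : ℝ := 1 / 7 with hθ
  set δ : ℝ := min (ε / 4) (1 / 280) with hδ
  have hδ0 : 0 < δ := lt_min (by linarith) (by positivity)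
  have hδε : δ ≤ ε / 4 := min_le_left _ _
  have hδ1 : δ ≤ 1 / 280 := min_le_right _ _
  set a : ℝ := θ - δ with ha
  have hcast : ((7 : ℕ) : ℝ) = 7 := by norm_num
  have hpa1 : ((7 : ℕ) : ℝ) * a < 1 := by rw [hcast, ha, hθ]; linarith
  have hpa2 : (7 : ℝ) / 10 ≤ ((7 : ℕ) : ℝ) * a := by rw [hcast, ha, hθ]; linarith
  have ha0 : 0 < a := by rw [ha, hθ]; linarith
  have ha3 : a ≤ 1 / 4 := by rw [ha, hθ]; linarith
  set η : ℝ := δ / 4 with hη
  have hη0 : 0 < η := by rw [hη]; linarith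
  obtain ⟨c, hc, hpar⟩ := params 7 (by norm_num) a η ha0 hη0 (by rw [hη]; linarith) hpa1 hpa2 ha3
  set s : ℝ := a * (4 * (1301 / 1000)) with hs'
  have hs : s < 1 / 2 + 2 * a - η := by rw [hs', hη, ha, hθ]; linarith
  have g1 : 0 < (1 / 2 + 2 * a - η) - s := by linarith
  have g2 : 0 < ε - 2 * δ - η := by rw [hη]; linarith
  filter_upwards [hpar 2000, ev_rpow _ g1 (2 * (C + 1) / c), ev_rpow _ g2 (2 / c),
    eventually_ge_atTop 1] with N hN hg1 hg2 hN1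
  obtain ⟨Z, Y, hZ, hY, hZl, hZu, hT2, hdisc, hR⟩ := hN
  have hN0 : (0 : ℝ) < N := by exact_mod_cast hN1
  have hN1' : (1 : ℝ) ≤ N := by exact_mod_cast hN1
  have hCpos : 0 ≤ C := by linarith
  have hmain := main_ineq2 7 Z Y (Z ^ 7) N ⌊C * (Z : ℝ) ^ (4 * (1301 / 1000) : ℝ)⌋₊ (by norm_num) hY
    (by omega) hT2 hdisc f hf (by
      intro S hSR hS
      apply Nat.le_floor
      exact hV 7 Z Y (Z ^ 7) f (by norm_num) (by omega) hT2 hf hsum S hSR hS)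
  have hE : ((⌊C * (Z : ℝ) ^ (4 * (1301 / 1000) : ℝ)⌋₊ : ℕ) : ℝ) ≤ C * (N : ℝ) ^ s := by
    refine (Nat.floor_le (by positivity)).trans ?_
    apply mul_le_mul_of_nonneg_left _ hCpos
    have : (N : ℝ) ^ s = ((N : ℝ) ^ a) ^ (4 * (1301 / 1000) : ℝ) := by
      rw [← Real.rpow_mul hN0.le]
    rw [this]
    exact Real.rpow_le_rpow (by positivity) hZu (by norm_num)
  have hgoal : (1 / 2 + 2 / ((7 : ℝ)) - ε : ℝ) = 1 / 2 + 2 * θ - ε := by rw [hθ]; ring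
  rw [hgoal]
  refine le_trans ?_ hmain
  set X : ℝ := (N : ℝ) with hX
  have e1 : C * X ^ s ≤ c / 2 * X ^ (1 / 2 + 2 * a - η) := by
    have : X ^ (1 / 2 + 2 * a - η) = X ^ ((1 / 2 + 2 * a - η) - s) * X ^ s := by
      rw [← Real.rpow_add hN0]; congr 1; ring
    rw [this]
    have h1 : C ≤ c / 2 * X ^ ((1 / 2 + 2 * a - η) - s) := by
      rw [div_le_iff₀ hc] at hg1
      linarith
    have h2 : 0 < X ^ s := by positivity
    calc C * X ^ s ≤ (c / 2 * X ^ ((1 / 2 + 2 * a - η) - s)) * X ^ s :=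
          mul_le_mul_of_nonneg_right h1 h2.le
      _ = _ := by ring
  have e2 : X ^ (1 / 2 + 2 * θ - ε) ≤ c / 2 * X ^ (1 / 2 + 2 * a - η) := by
    have : X ^ (1 / 2 + 2 * a - η) = X ^ (ε - 2 * δ - η) * X ^ (1 / 2 + 2 * θ - ε) := by
      rw [← Real.rpow_add hN0]; congr 1; rw [ha]; ring
    rw [this]
    have h1 : 1 ≤ c / 2 * X ^ (ε - 2 * δ - η) := by
      rw [div_le_iff₀ hc] at hg2
      linarith
    have h2 : 0 < X ^ (1 / 2 + 2 * θ - ε) := by positivity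
    calc X ^ (1 / 2 + 2 * θ - ε) = 1 * X ^ (1 / 2 + 2 * θ - ε) := (one_mul _).symm
      _ ≤ (c / 2 * X ^ (ε - 2 * δ - η)) * X ^ (1 / 2 + 2 * θ - ε) :=
          mul_le_mul_of_nonneg_right h1 h2.le
      _ = _ := by ring
  linarith

end Pool.Agent.FM
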